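import Pool.Agent.Helper91.MC9.Spec

set_option autoImplicit false

namespace Pool.Agent.Helper96.MC9.NEW

open SimpleGraph Pool.Agent.Helper91.MC9

lemma ncard_filter {α : Type} [Fintype α] (s : Set α) [DecidablePred (· ∈ s)] :
    s.ncard = (Finset.univ.filter (· ∈ s)).card := by
  rw [← Set.ncard_coe_finset]
  congr 1
  ext x
  simp

/-- the new edges of type `(C, e)` -/
def F {V : Type} {m : ℕ} (G : SimpleGraph V) (G' : SimpleGraph (Fin m × V))
    (C : G.ConnectedComponent) (e : Sym2 (Fin m)) : Set (Sym2 (Fin m × V)) :=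
  {a | ∃ i j x y, e = s(i, j) ∧ i ≠ j ∧ G.connectedComponentMk x = C ∧
    G.connectedComponentMk y = C ∧ G'.Adj (i, x) (j, y) ∧ a = s((i, x), (j, y))}

lemma F_card {V : Type} [Finite V] {m : ℕ} (G : SimpleGraph V) (G' : SimpleGraph (Fin m × V))
    (K : ℕ) (hK : ∀ i j, i ≠ j → ∀ C : G.ConnectedComponent,
      {p : V × V | G.connectedComponentMk p.1 = C ∧ G.connectedComponentMk p.2 = C ∧
        G'.Adj (i, p.1) (j, p.2)}.ncard ≤ K)
    (C : G.ConnectedComponent) (e : Sym2 (Fin m)) : (F G G' C e).ncard ≤ K := by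
  induction e with
  | _ i j =>
  by_cases hij : i = j
  · have : F G G' C s(i, j) = ∅ := by
      ext a
      simp only [F, Set.mem_ofPred_eq, Set.mem_empty_iff_false, iff_false]
      rintro ⟨i', j', x, y, he, hne, -⟩
      subst hij
      rw [Sym2.eq_iff] at he
      rcases he with ⟨h1, h2⟩ | ⟨h1, h2⟩
      · exact hne (h1.symm.trans h2)
      · exact hne (h2.symm.trans h1)
    rw [this]; simp
  · have hsub : F G G' C s(i, j) ⊆ (fun p : V × V => s((i, p.1), (j, p.2))) ''
        {p : V × V | G.connectedComponentMk p.1 = C ∧ G.connectedComponentMk p.2 = C ∧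
          G'.Adj (i, p.1) (j, p.2)} := by
      rintro a ⟨i', j', x, y, he, hne, hx, hy, hadj, rfl⟩
      rw [Sym2.eq_iff] at he
      rcases he with ⟨h1, h2⟩ | ⟨h1, h2⟩
      · subst h1 h2
        exact ⟨(x, y), ⟨hx, hy, hadj⟩, rfl⟩
      · subst h1 h2
        exact ⟨(y, x), ⟨hy, hx, hadj.symm⟩, Sym2.eq_swap⟩
    refine (Set.ncard_le_ncard hsub (Set.toFinite _)).trans ?_
    exact (Set.ncard_image_le (Set.toFinite _)).trans (hK i j hij C)

theorem main (hBLK : S_BLK) (hQUO : S_QUO) (hLIN : S_LIN) (hPAIR : S_PAIR) (hCOPE : S_COPE) :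
    S_NEW := by
  classical
  intro ℋ hne
  obtain ⟨C1, hC1⟩ := hLIN ℋ hne
  obtain ⟨K1, hK1⟩ := hPAIR ℋ hne
  refine ⟨C1 * K1, ?_⟩
  intro V _ G m G' hG hG' hle
  have : Fintype V := Fintype.ofFinite V
  have : Fintype G.ConnectedComponent := Fintype.ofFinite _
  set New : Set (Sym2 (Fin m × V)) := G'.edgeSet \ (copies m G).edgeSet with hNew
  have hsub : (copies m G).edgeSet ⊆ G'.edgeSet := edgeSet_subset_edgeSet.2 hle
  have h1 : New.ncard + (copies m G).edgeSet.ncard = G'.edgeSet.ncard :=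
    Set.ncard_sdiff_add_ncard_of_subset hsub (Set.toFinite _)
  have h2 := hCOPE V m G
  set U : Finset G.ConnectedComponent := Finset.univ.filter (Uniq G) with hU
  have hUc : uq G = U.card := by
    unfold uq
    rw [ncard_filter]
    congr 1
  have hcov : New ⊆ ((U.biUnion (fun C =>
      (Finset.univ.filter (· ∈ (quo G C G').edgeSet)).biUnion (fun e =>
        Finset.univ.filter (· ∈ F G G' C e))) : Finset (Sym2 (Fin m × V))) :
          Set (Sym2 (Fin m × V))) := by
    intro a ha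
    obtain ⟨ha1, ha2⟩ := ha
    rw [Finset.mem_coe]
    induction a with
    | _ a b =>
    obtain ⟨i, x⟩ := a
    obtain ⟨j, y⟩ := b
    rw [mem_edgeSet] at ha1 ha2
    have hn : ¬ (i = j ∧ G.Adj x y) := ha2
    obtain ⟨hij, hxy, huq⟩ := hBLK ℋ V G m G' hG hG' hle i j x y ha1 hn
    rw [Finset.mem_biUnion]
    refine ⟨G.connectedComponentMk x, by simp [hU, huq], ?_⟩
    rw [Finset.mem_biUnion]
    refine ⟨s(i, j), ?_, ?_⟩
    · rw [Finset.mem_filter]
      refine ⟨Finset.mem_univ _, ?_⟩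
      rw [mem_edgeSet]
      exact ⟨hij, x, y, rfl, hxy.symm, ha1⟩
    · rw [Finset.mem_filter]
      exact ⟨Finset.mem_univ _, i, j, x, y, rfl, hij, rfl, hxy.symm, ha1, rfl⟩
  have h3 : New.ncard ≤ U.card * (C1 * m * K1) := by
    refine (Set.ncard_le_ncard hcov (Set.toFinite _)).trans ?_
    rw [Set.ncard_coe_finset]
    refine Finset.card_biUnion_le_card_mul _ _ _ fun C _ => ?_
    refine (Finset.card_biUnion_le_card_mul _ _ K1 fun e _ => ?_).trans ?_
    · rw [← ncard_filter]
      exact F_card G G' K1 (fun i j hij C => hK1 V G m G' hG hG' hle i j hij C) C e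
    · refine Nat.mul_le_mul_right _ ?_
      rw [← ncard_filter]
      have := hC1 (Fin m) (quo G C G') (hQUO ℋ V G m G' hG' hle C)
      rwa [Nat.card_fin] at this
  rw [hUc]
  have e1 : C1 * K1 * m * U.card = U.card * (C1 * m * K1) := by ring
  rw [e1]
  omega

end Pool.Agent.Helper96.MC9.NEW
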